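import Mathlib
import Pool.Agent.W769.SR.Stm

/-! Project SR: removing the zeros inside a circle (part FACT). -/

set_option autoImplicit false

namespace Pool.Agent.W38.SR.Fact

open Metric Set Filter Topology Real
open Pool.Agent.W769.SR

lemma key (r : ℝ) (z w : ℂ) : ‖((r : ℂ) ^ 2 - (starRingEnd ℂ) w * z)‖ ^ 2 - r ^ 2 * ‖z - w‖ ^ 2 =
    (r ^ 2 - ‖z‖ ^ 2) * (r ^ 2 - ‖w‖ ^ 2) := by
  rw [← Complex.normSq_eq_norm_sq, ← Complex.normSq_eq_norm_sq, ← Complex.normSq_eq_norm_sq,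
    ← Complex.normSq_eq_norm_sq]
  simp only [Complex.normSq_apply, pow_two, Complex.sub_re, Complex.sub_im, Complex.mul_re,
    Complex.mul_im, Complex.ofReal_re, Complex.ofReal_im, Complex.conj_re, Complex.conj_im]
  ring

lemma norm_le {r : ℝ} (hr : 0 < r) {z w : ℂ} (hz : ‖z‖ ≤ r) (hw : ‖w‖ < r) :
    ‖z - w‖ ≤ ‖((r : ℂ) ^ 2 - (starRingEnd ℂ) w * z) / r‖ := by
  have h1 := key r z w
  have h2 : 0 ≤ (r ^ 2 - ‖z‖ ^ 2) * (r ^ 2 - ‖w‖ ^ 2) := by
    apply mul_nonneg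
    · nlinarith [norm_nonneg z]
    · nlinarith [norm_nonneg w]
  rw [norm_div, Complex.norm_real, Real.norm_of_nonneg hr.le, le_div_iff₀ hr]
  refine le_of_sq_le_sq ?_ (norm_nonneg _)
  nlinarith

lemma norm_eq' {r : ℝ} (hr : 0 < r) {z w : ℂ} (hz : ‖z‖ = r) :
    ‖z - w‖ = ‖((r : ℂ) ^ 2 - (starRingEnd ℂ) w * z) / r‖ := by
  have h1 := key r z w
  rw [hz, sub_self, zero_mul] at h1
  rw [norm_div, Complex.norm_real, Real.norm_of_nonneg hr.le, eq_div_iff hr.ne']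
  have h3 : (‖z - w‖ * r) ^ 2 = ‖((r : ℂ) ^ 2 - (starRingEnd ℂ) w * z)‖ ^ 2 := by
    rw [mul_pow]; linarith
  exact (pow_left_inj₀ (by positivity) (norm_nonneg _) two_ne_zero).1 h3

lemma ne_zero' {r : ℝ} (hr : 0 < r) {z w : ℂ} (hz : ‖z‖ ≤ r) (hw : ‖w‖ < r) :
    ((r : ℂ) ^ 2 - (starRingEnd ℂ) w * z) / r ≠ 0 := by
  apply div_ne_zero
  · intro h
    have h1 : ((r : ℂ) ^ 2) = (starRingEnd ℂ) w * z := sub_eq_zero.1 h
    have h2 : ‖((r : ℂ) ^ 2)‖ = ‖(starRingEnd ℂ) w * z‖ := by rw [h1]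
    rw [norm_pow, Complex.norm_real, Real.norm_of_nonneg hr.le, norm_mul, RCLike.norm_conj] at h2
    have h3 : ‖w‖ * ‖z‖ < r * r := mul_lt_mul'' hw (lt_of_le_of_ne hz ?_) (norm_nonneg _)
      (norm_nonneg _) |>.trans_le le_rfl
    · nlinarith
    · intro h4
      rw [h4] at h2
      nlinarith
  · exact_mod_cast hr.ne'

/-- removal of a zero -/
lemma factor (F : ℂ → ℂ) (hF : DifferentiableOn ℂ F (ball 0 1)) (w : ℂ) (hw : w ∈ ball (0 : ℂ) 1)
    (hnz : ∃ z ∈ ball (0 : ℂ) 1, F z ≠ 0) : ∃ (m : ℕ) (H : ℂ → ℂ),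
      DifferentiableOn ℂ H (ball 0 1) ∧ H w ≠ 0 ∧ ∀ z, F z = (z - w) ^ m * H z := by
  classical
  have hA : AnalyticOnNhd ℂ F (ball 0 1) := hF.analyticOnNhd isOpen_ball
  have hAw : AnalyticAt ℂ F w := hA w hw
  have hpre : IsPreconnected (ball (0 : ℂ) 1) := (convex_ball 0 1).isPreconnected
  have hne : ¬ ∀ᶠ z in 𝓝 w, F z = 0 := by
    intro h
    have h1 := hA.eqOn_zero_of_preconnected_of_eventuallyEq_zero hpre hw h
    obtain ⟨z, hz, hz2⟩ := hnz
    exact hz2 (h1 hz)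
  obtain ⟨m, g, hg, hg0, hgF⟩ := hAw.exists_eventuallyEq_pow_smul_nonzero_iff.2 hne
  refine ⟨m, fun z => if z = w then g w else F z / (z - w) ^ m, ?_, ?_, ?_⟩
  · intro z hz
    apply DifferentiableAt.differentiableWithinAt
    by_cases hzw : z = w
    · subst hzw
      have heq : (fun x => if x = z then g z else F x / (x - z) ^ m) =ᶠ[𝓝 z] g := by
        filter_upwards [hgF] with x hx
        by_cases hxz : x = z
        · rw [if_pos hxz, hxz]
        · rw [if_neg hxz, hx, smul_eq_mul, mul_div_cancel_left₀]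
          exact pow_ne_zero _ (sub_ne_zero.2 hxz)
      exact (hg.differentiableAt).congr_of_eventuallyEq heq
    · have heq : (fun x => if x = w then g w else F x / (x - w) ^ m) =ᶠ[𝓝 z]
          fun x => F x / (x - w) ^ m := by
        filter_upwards [isOpen_ne.mem_nhds hzw] with x hx
        exact if_neg hx
      have hd : DifferentiableAt ℂ (fun x => F x / (x - w) ^ m) z := by
        apply DifferentiableAt.div
        · exact (hF z hz).differentiableAt (isOpen_ball.mem_nhds hz)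
        · fun_prop
        · exact pow_ne_zero _ (sub_ne_zero.2 hzw)
      exact hd.congr_of_eventuallyEq heq
  · simpa using hg0
  · intro z
    by_cases hzw : z = w
    · subst hzw
      have := hgF.self_of_nhds
      simp only [if_true]
      rw [this, smul_eq_mul]
    · simp only [if_neg hzw]
      rw [mul_div_cancel₀]
      exact pow_ne_zero _ (sub_ne_zero.2 hzw)

lemma finite_zeros (F : ℂ → ℂ) (r : ℝ) (hr1 : r < 1) (hF : DifferentiableOn ℂ F (ball 0 1))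
    (hnz : ∃ z ∈ ball (0 : ℂ) 1, F z ≠ 0) : {z : ℂ | ‖z‖ ≤ r ∧ F z = 0}.Finite := by
  by_contra hinf
  have hA : AnalyticOnNhd ℂ F (ball 0 1) := hF.analyticOnNhd isOpen_ball
  have hpre : IsPreconnected (ball (0 : ℂ) 1) := (convex_ball 0 1).isPreconnected
  have hsub : {z : ℂ | ‖z‖ ≤ r ∧ F z = 0} ⊆ closedBall 0 r := by
    intro z hz
    rw [mem_closedBall_zero_iff]
    exact hz.1
  obtain ⟨x, hx, hacc⟩ := Set.Infinite.exists_accPt_of_subset_isCompact hinf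
    (isCompact_closedBall 0 r) hsub
  have hx1 : x ∈ ball (0 : ℂ) 1 := closedBall_subset_ball hr1 hx
  have hfr : ∃ᶠ z in 𝓝[≠] x, F z = 0 := by
    rw [accPt_iff_frequently_nhdsNE] at hacc
    exact hacc.mono (fun z hz => hz.2)
  have h1 := hA.eqOn_zero_of_preconnected_of_frequently_eq_zero hpre hx1 hfr
  obtain ⟨z, hz, hz2⟩ := hnz
  exact hz2 (h1 hz)

lemma main_ind (r : ℝ) (hr : 0 < r) (hr1 : r < 1) : ∀ (n : ℕ) (F : ℂ → ℂ),
    DifferentiableOn ℂ F (ball 0 1) → (∀ z, ‖z‖ = r → F z ≠ 0) →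
    {z : ℂ | ‖z‖ ≤ r ∧ F z = 0}.ncard = n → ∃ F₂ : ℂ → ℂ, DifferentiableOn ℂ F₂ (ball 0 1) ∧
      (∀ z, ‖z‖ ≤ r → F₂ z ≠ 0) ∧ (∀ z, ‖z‖ ≤ r → ‖F z‖ ≤ ‖F₂ z‖) ∧
      (∀ z, ‖z‖ = r → ‖F z‖ = ‖F₂ z‖) := by
  intro n
  induction n using Nat.strong_induction_on with
  | _ n ih =>
    intro F hF hcirc hn
    have hrn : ‖(r : ℂ)‖ = r := by rw [Complex.norm_real, Real.norm_of_nonneg hr.le]
    have hnz : ∃ z ∈ ball (0 : ℂ) 1, F z ≠ 0 := ⟨r, by rw [mem_ball_zero_iff, hrn]; exact hr1,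
      hcirc r hrn⟩
    have hfin := finite_zeros F r hr1 hF hnz
    by_cases hex : ∃ w : ℂ, ‖w‖ ≤ r ∧ F w = 0
    · obtain ⟨w, hw, hFw⟩ := hex
      have hwr : ‖w‖ < r := lt_of_le_of_ne hw (fun h => hcirc w h hFw)
      have hwb : w ∈ ball (0 : ℂ) 1 := by rw [mem_ball_zero_iff]; linarith
      obtain ⟨m, H, hH, hHw, hFH⟩ := factor F hF w hwb hnz
      have hss : {z : ℂ | ‖z‖ ≤ r ∧ H z = 0} ⊂ {z : ℂ | ‖z‖ ≤ r ∧ F z = 0} := by
        refine ⟨fun z hz => ⟨hz.1, by rw [hFH z, hz.2, mul_zero]⟩, fun hsup => ?_⟩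
        exact hHw (hsup (⟨hw, hFw⟩ : w ∈ {z : ℂ | ‖z‖ ≤ r ∧ F z = 0})).2
      have hlt : {z : ℂ | ‖z‖ ≤ r ∧ H z = 0}.ncard < n := by
        rw [← hn]; exact Set.ncard_lt_ncard hss hfin
      obtain ⟨H₂, g1, g2, g3, g4⟩ := ih _ hlt H hH (fun z hz h0 => hcirc z hz (by
        rw [hFH z, h0, mul_zero])) rfl
      refine ⟨fun z => (((r : ℂ) ^ 2 - (starRingEnd ℂ) w * z) / r) ^ m * H₂ z, ?_, ?_, ?_, ?_⟩
      · apply DifferentiableOn.mul _ g1
        apply Differentiable.differentiableOn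
        fun_prop
      · intro z hz
        exact mul_ne_zero (pow_ne_zero _ (ne_zero' hr hz hwr)) (g2 z hz)
      · intro z hz
        rw [hFH z, norm_mul, norm_mul, norm_pow, norm_pow]
        exact mul_le_mul (pow_le_pow_left₀ (norm_nonneg _) (norm_le hr hz hwr) m) (g3 z hz)
          (norm_nonneg _) (pow_nonneg (norm_nonneg _) _)
      · intro z hz
        rw [hFH z, norm_mul, norm_mul, norm_pow, norm_pow, norm_eq' hr hz, g4 z hz]
    · push Not at hex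
      exact ⟨F, hF, hex, fun z _ => le_rfl, fun z _ => rfl⟩

theorem main : S_FACT := by
  intro F r hr hr1 hF hcirc
  obtain ⟨F₂, h1, h2, h3, h4⟩ := main_ind r hr hr1 _ F hF hcirc rfl
  have hopen : IsOpen (ball (0 : ℂ) 1 ∩ F₂ ⁻¹' {0}ᶜ) :=
    h1.continuousOn.isOpen_inter_preimage isOpen_ball isOpen_compl_singleton
  have hsub : closedBall (0 : ℂ) r ⊆ ball (0 : ℂ) 1 ∩ F₂ ⁻¹' {0}ᶜ := by
    intro z hz
    refine ⟨closedBall_subset_ball hr1 hz, h2 z ?_⟩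
    rwa [mem_closedBall_zero_iff] at hz
  obtain ⟨δ, hδ, hthick⟩ := (isCompact_closedBall (0 : ℂ) r).exists_thickening_subset_open hopen hsub
  rw [thickening_closedBall hδ hr.le] at hthick
  refine ⟨min 1 (r + δ), F₂, lt_min hr1 (by linarith), min_le_left _ _, ?_, ?_, h3, h4⟩
  · exact h1.mono (ball_subset_ball (min_le_left _ _))
  · intro z hz
    have : z ∈ ball (0 : ℂ) (δ + r) := by
      refine ball_subset_ball ?_ hz
      rw [add_comm]; exact min_le_right _ _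
    exact (hthick this).2

end Pool.Agent.W38.SR.Fact
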